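import Mathlib

namespace Pool.Agent.Results.MP_d55cb9_co.Counterexample

theorem result :
    ∃ F : Finset (Finset ℕ), F.Nonempty ∧ (∀ A ∈ F, ∀ B ∈ F, A ∪ B ∈ F) ∧
      (∀ X : Finset ℕ, F ≠ X.powerset) ∧
      ∀ x : ℕ, 2 * (F.filter fun A => x ∈ A).card ≤ F.card := by
  refine ⟨{∅, {0, 1}}, by simp, by decide, fun X h => ?_, fun x => ?_⟩
  · have h1 : ({0, 1} : Finset ℕ) ∈ X.powerset := h ▸ by simp
    have h2 : ({0} : Finset ℕ) ∈ X.powerset :=
      Finset.mem_powerset.2 (Finset.Subset.trans (by decide) (Finset.mem_powerset.1 h1))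
    rw [← h] at h2
    revert h2
    decide
  · have h1 : (({∅, {0, 1}} : Finset (Finset ℕ)).filter fun A => x ∈ A) ⊆ {{0, 1}} := by
      intro A hA
      simp only [Finset.mem_filter, Finset.mem_insert, Finset.mem_singleton] at hA ⊢
      rcases hA with ⟨rfl | rfl, h⟩
      · simp at h
      · rfl
    have h2 := Finset.card_le_card h1
    have h3 : ({∅, {0, 1}} : Finset (Finset ℕ)).card = 2 := by decide
    rw [Finset.card_singleton] at h2
    omega

end Pool.Agent.Results.MP_d55cb9_co.Counterexample
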